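import Pool.Agent.R754.WX.G2
import Pool.Agent.R305.FM.F6

set_option autoImplicit false

/-! # The criterion for general multipliers -/

namespace Pool.Agent.R754.WX

open MeasureTheory Filter Topology Set
open H353.FB
open Pool.Agent.H295R2 (ww ee GR)
open Pool.Agent.W120.WM (ZC NT)
open Pool.Agent.TH223.AP (WM WM_iff_ZC)
open Pool.Agent.R305.FM (Ad cv fC fC_ad subst_exp norm_fC_sq)

/-- `∫_1^x |E(u)|² u^{-2} du` -/
noncomputable def IE (E : ℝ → ℂ) (x : ℝ) : ℝ := ∫ u in (1:ℝ)..x, ‖E u‖ ^ 2 / u ^ 2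

lemma IE_eq (φ : ArithmeticFunction ℂ) {x : ℝ} (hx : 1 ≤ x) :
    IE (Sh φ) x = ∫ v in (0:ℝ)..(Real.log x), ‖gC φ v‖ ^ 2 := by
  unfold IE
  rw [subst_exp (fun u => ‖Sh φ u‖ ^ 2 / u ^ 2) hx]
  apply intervalIntegral.integral_congr
  intro v _
  simp only
  unfold gC
  rw [norm_mul, Complex.norm_real, Real.norm_of_nonneg (Real.exp_pos _).le, mul_pow]
  have h1 : Real.exp (-(v / 2)) ^ 2 = (Real.exp v)⁻¹ := by
    rw [← Real.exp_nat_mul, show ((2 : ℕ) : ℝ) * -(v / 2) = -v by push_cast; ring, Real.exp_neg]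
  rw [h1]
  field_simp

/-- the integral of `|f|²` -/
noncomputable def IF (V : ℝ) : ℝ := ∫ v in (0:ℝ)..V, ‖fC v‖ ^ 2

lemma IF_eq {V : ℝ} (hV : 0 ≤ V) : IF V = Pool.Agent.W120.WM.msq 1 (Real.exp V) := by
  unfold IF Pool.Agent.W120.WM.msq
  rw [subst_exp _ (Real.one_le_exp hV), Real.log_exp]
  apply intervalIntegral.integral_congr
  intro v _
  simp only
  rw [norm_fC_sq]
  have e1 : (∑ n ∈ Finset.Icc 1 ⌊Real.exp v⌋₊, ((ArithmeticFunction.moebius n : ℤ) : ℝ)) =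
      Mx (Real.exp v) := rfl
  rw [e1, Real.exp_neg]
  field_simp

lemma IF_top (hZ : ¬ ZC) : Tendsto (fun V : ℝ => IF V / V) atTop atTop := by
  have h1 := (Pool.Agent.W120.WM.final3 1 one_pos le_rfl).2 hZ
  have h2 := h1.comp Real.tendsto_exp_atTop
  refine h2.congr' ?_
  filter_upwards [eventually_gt_atTop (0:ℝ)] with V hV
  simp only [Function.comp]
  rw [Real.log_exp, sub_self, Real.rpow_zero, IF_eq hV.le]

lemma IF_lim (hZ : ZC) : Tendsto (fun V : ℝ => IF V / V) atTop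
    (𝓝 (∑' ρ : NT, 1 / ‖(ρ : ℂ) * deriv riemannZeta ρ‖ ^ 2)) := by
  have h1 := (Pool.Agent.W120.WM.final3 1 one_pos le_rfl).1 hZ
  have h2 := h1.comp Real.tendsto_exp_atTop
  rw [one_mul] at h2
  refine h2.congr' ?_
  filter_upwards [eventually_gt_atTop (0:ℝ)] with V hV
  simp only [Function.comp]
  rw [Real.log_exp, sub_self, Real.rpow_zero, IF_eq hV.le]

lemma f_le_g {h k : ArithmeticFunction ℂ} (hk : h * k = 1) (hs : Summable fun m => ‖wgt h m‖)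
    (hsk : Summable fun m => ‖wgt k m‖) {V : ℝ} (hV : 0 ≤ V) :
    IF V ≤ KC (wgt k) ^ 2 * ∫ v in (0:ℝ)..V, ‖gC h v‖ ^ 2 := by
  have h1 : fC = cv (wgt k) (gC h) := by
    rw [gC_eq, cv_inv hk fC_ad]
  unfold IF
  conv_lhs => rw [h1]
  exact young (gC_ad hs) hsk hV

lemma g_le_f {h : ArithmeticFunction ℂ} (hs : Summable fun m => ‖wgt h m‖) {V : ℝ} (hV : 0 ≤ V) :
    ∫ v in (0:ℝ)..V, ‖gC h v‖ ^ 2 ≤ KC (wgt h) ^ 2 * IF V := by
  rw [gC_eq]
  exact young fC_ad hs hV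

theorem lim_yes {h : ArithmeticFunction ℂ} (hs : Summable fun m => ‖wgt h m‖) (hZ : ZC) :
    Tendsto (fun x : ℝ => IE (Sh h) x / Real.log x) atTop (𝓝 (SH h)) := by
  have h1 := (lim_h hs hZ).comp Real.tendsto_log_atTop
  refine h1.congr' ?_
  filter_upwards [eventually_ge_atTop (1:ℝ)] with x hx
  rw [IE_eq h hx]
  rfl

theorem lim_no {h k : ArithmeticFunction ℂ} (hk : h * k = 1) (hs : Summable fun m => ‖wgt h m‖)
    (hsk : Summable fun m => ‖wgt k m‖) (hZ : ¬ ZC) :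
    Tendsto (fun x : ℝ => IE (Sh h) x / Real.log x) atTop atTop := by
  have hK : 0 < KC (wgt k) ^ 2 + 1 := by positivity
  have h2 := ((IF_top hZ).atTop_div_const hK).comp Real.tendsto_log_atTop
  refine tendsto_atTop_mono' atTop ?_ h2
  filter_upwards [eventually_gt_atTop (1:ℝ)] with x hx
  have hL : 0 < Real.log x := Real.log_pos hx
  simp only [Function.comp]
  rw [IE_eq h hx.le]
  have h3 := f_le_g hk hs hsk hL.le
  have h4 : 0 ≤ ∫ v in (0:ℝ)..(Real.log x), ‖gC h v‖ ^ 2 :=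
    intervalIntegral.integral_nonneg hL.le fun v _ => by positivity
  rw [div_div, div_le_div_iff₀ (by positivity) hL]
  nlinarith

theorem bound_all {h : ArithmeticFunction ℂ} (hs : Summable fun m => ‖wgt h m‖) (hW : WM) :
    ∃ C : ℝ, ∀ x : ℝ, 2 ≤ x → IE (Sh h) x ≤ C * Real.log x := by
  obtain ⟨C, hC⟩ := hW
  refine ⟨KC (wgt h) ^ 2 * C, fun x hx => ?_⟩
  have hx1 : 1 ≤ x := by linarith
  rw [IE_eq h hx1]
  have h1 := g_le_f hs (Real.log_nonneg hx1)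
  rw [IF_eq (Real.log_nonneg hx1), Real.exp_log (by linarith)] at h1
  have h2 := hC x hx
  refine h1.trans ?_
  rw [mul_assoc]
  exact mul_le_mul_of_nonneg_left h2 (by positivity)

lemma SH_pos {h k : ArithmeticFunction ℂ} (hk : h * k = 1) (hs : Summable fun m => ‖wgt h m‖)
    (hsk : Summable fun m => ‖wgt k m‖) (hZ : ZC) : 0 < SH h := by
  have h1 := IF_lim hZ
  have h2 := (lim_h hs hZ).const_mul (KC (wgt k) ^ 2)
  have h3 : ∑' ρ : NT, 1 / ‖(ρ : ℂ) * deriv riemannZeta ρ‖ ^ 2 ≤ KC (wgt k) ^ 2 * SH h := by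
    refine le_of_tendsto_of_tendsto h1 h2 ?_
    filter_upwards [eventually_gt_atTop (0:ℝ)] with V hV
    rw [← mul_div_assoc]
    exact div_le_div_of_nonneg_right (f_le_g hk hs hsk hV.le) hV.le
  have h4 : 0 < ∑' ρ : NT, 1 / ‖(ρ : ℂ) * deriv riemannZeta ρ‖ ^ 2 := Pool.Agent.TH223.AP.SS_pos hZ
  by_contra h5
  have h6 : SH h ≤ 0 := not_lt.1 h5
  have h7 : KC (wgt k) ^ 2 * SH h ≤ 0 := mul_nonpos_of_nonneg_of_nonpos (by positivity) h6
  linarith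

lemma ZC_of_freq {h k : ArithmeticFunction ℂ} (hk : h * k = 1) (hs : Summable fun m => ‖wgt h m‖)
    (hsk : Summable fun m => ‖wgt k m‖) {C : ℝ} (hf : ∃ᶠ x : ℝ in atTop, IE (Sh h) x ≤ C * Real.log x) : ZC := by
  by_contra hZ
  have h1 := (lim_no hk hs hsk hZ).eventually (eventually_gt_atTop C)
  obtain ⟨x, h2, h3, h4⟩ := (hf.and_eventually (h1.and (eventually_gt_atTop (1:ℝ)))).exists
  have : 0 < Real.log x := Real.log_pos h4
  rw [lt_div_iff₀ this] at h3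
  linarith

/-- the criterion -/
def Crit (E : ℝ → ℂ) (W : ℂ → ℝ) : Prop :=
  (WM ↔ ∃ C : ℝ, ∀ x : ℝ, 2 ≤ x → IE E x ≤ C * Real.log x) ∧
  (WM ↔ ∃ C : ℝ, ∃ᶠ x : ℝ in atTop, IE E x ≤ C * Real.log x) ∧
  (WM → Summable (fun ρ : NT => W ρ / ‖(ρ : ℂ) * deriv riemannZeta ρ‖ ^ 2) ∧
    0 < ∑' ρ : NT, W ρ / ‖(ρ : ℂ) * deriv riemannZeta ρ‖ ^ 2 ∧
    Tendsto (fun x : ℝ => IE E x / Real.log x) atTop
      (𝓝 (∑' ρ : NT, W ρ / ‖(ρ : ℂ) * deriv riemannZeta ρ‖ ^ 2))) ∧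
  (¬ WM → Tendsto (fun x : ℝ => IE E x / Real.log x) atTop atTop)

theorem crit {h k : ArithmeticFunction ℂ} (hk : h * k = 1) (hs : Summable fun n : ℕ => ‖h n‖ / √(n : ℝ))
    (hsk : Summable fun n : ℕ => ‖k n‖ / √(n : ℝ)) : Crit (Sh h) (fun ρ => ‖LS h ρ‖ ^ 2) := by
  have s1 := wgt_summable hs
  have s2 := wgt_summable hsk
  refine ⟨⟨fun hW => bound_all s1 hW, ?_⟩, ⟨fun hW => ?_, ?_⟩, fun hW => ?_, fun hW => ?_⟩
  · rintro ⟨C, hC⟩
    exact WM_iff_ZC.2 (ZC_of_freq hk s1 s2 (C := C) (eventually_atTop.2 ⟨2, hC⟩).frequently)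
  · obtain ⟨C, hC⟩ := bound_all s1 hW
    exact ⟨C, (eventually_atTop.2 ⟨2, hC⟩).frequently⟩
  · rintro ⟨C, hC⟩
    exact WM_iff_ZC.2 (ZC_of_freq hk s1 s2 hC)
  · have hZ := WM_iff_ZC.1 hW
    exact ⟨SH_summable s1 hZ, SH_pos hk s1 s2 hZ, lim_yes s1 hZ⟩
  · exact lim_no hk s1 s2 fun hZ => hW (WM_iff_ZC.2 hZ)

lemma LS_eq (h : ArithmeticFunction ℂ) (ρ : ℂ) : LS h ρ = LSeries (fun n => h n) ρ := by
  unfold LS LSeries
  congr 1
  funext m
  rcases Nat.eq_zero_or_pos m with rfl | hm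
  · unfold wgt
    simp
  have hm0 : (0 : ℝ) < m := by exact_mod_cast hm
  have hmC : (m : ℂ) ≠ 0 := by exact_mod_cast hm0.ne'
  rw [LSeries.term_of_ne_zero hm.ne']
  unfold wgt
  have e1 : ((((m : ℝ) ^ (-(1 / 2 : ℝ)) : ℝ)) : ℂ) * Complex.exp (-((ρ - 1 / 2) * Real.log m)) =
      ((m : ℂ) ^ ρ)⁻¹ := by
    rw [Complex.ofReal_cpow hm0.le, Complex.ofReal_natCast, Complex.cpow_def_of_ne_zero hmC,
      Complex.cpow_def_of_ne_zero hmC, ← Complex.exp_add, ← Complex.exp_neg,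
      ← Complex.ofReal_natCast, ← Complex.ofReal_log hm0.le]
    congr 1
    push_cast
    ring
  rw [mul_assoc, e1, div_eq_mul_inv]

/-- transfer -/
lemma Crit.congr {E E' : ℝ → ℂ} {W W' : ℂ → ℝ} (h : Crit E W) (hE : ∀ u : ℝ, 1 ≤ u → ‖E' u‖ = ‖E u‖)
    (hW : ∀ ρ ∈ NT, ρ.re = 1 / 2 → W' ρ = W ρ) : Crit E' W' := by
  have e1 : ∀ x : ℝ, 1 ≤ x → IE E' x = IE E x := by
    intro x hx
    unfold IE
    apply intervalIntegral.integral_congr
    intro u hu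
    rw [uIcc_of_le hx] at hu
    simp only
    rw [hE u hu.1]
  have e2 : ∀ᶠ x : ℝ in atTop, IE E' x = IE E x :=
    (eventually_ge_atTop (1:ℝ)).mono fun x hx => e1 x hx
  obtain ⟨h1, h2, h3, h4⟩ := h
  refine ⟨?_, ?_, fun hWM => ?_, fun hWM => ?_⟩
  · rw [h1]
    refine exists_congr fun C => forall₂_congr fun x hx => ?_
    rw [e1 x (by linarith)]
  · rw [h2]
    refine exists_congr fun C => ?_
    exact frequently_congr (e2.mono fun x hx => by rw [hx])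
  · have hZ := WM_iff_ZC.1 hWM
    have e3 : (fun ρ : NT => W' ρ / ‖(ρ : ℂ) * deriv riemannZeta ρ‖ ^ 2) =
        fun ρ : NT => W ρ / ‖(ρ : ℂ) * deriv riemannZeta ρ‖ ^ 2 := by
      funext ρ
      rw [hW ρ ρ.2 (hZ.1 ρ ρ.2).1]
    rw [e3]
    obtain ⟨a, b, c⟩ := h3 hWM
    exact ⟨a, b, c.congr' (e2.mono fun x hx => by simp only [hx])⟩
  · exact (h4 hWM).congr' (e2.mono fun x hx => by simp only [hx])

end Pool.Agent.R754.WX
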