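import Pool.Agent.R754.WX.G3

set_option autoImplicit false

/-! # Farey fractions as nodes of a quadrature formula -/

namespace Pool.Agent.R754.WX

open MeasureTheory Filter Topology Set
open H353.FB
open Pool.Agent.W120.WM (ZC NT)

/-- the error of the right endpoint rule for `G` on `(0, 1]`, with `a` in the place of the integral -/
noncomputable def cF (G : ℚ → ℝ) (a : ℝ) : ArithmeticFunction ℂ :=
  ⟨fun d => (((∑ j ∈ Finset.Icc 1 d, G ((j : ℚ) / (d : ℚ))) - a * d : ℝ) : ℂ), by simp⟩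

lemma cF_apply (G : ℚ → ℝ) (a : ℝ) (d : ℕ) :
    cF G a d = (((∑ j ∈ Finset.Icc 1 d, G ((j : ℚ) / (d : ℚ))) - a * d : ℝ) : ℂ) := rfl

lemma Mx_fl (u : ℝ) (m : ℕ) : Mx ((⌊u⌋₊ : ℝ) / m) = Mx (u / m) := by
  unfold Mx
  rw [Nat.floor_div_natCast, Nat.floor_natCast, Nat.floor_div_natCast]

lemma farey_err (G : ℚ → ℝ) (a : ℝ) (u : ℝ) :
    (((∑ r ∈ farey ⌊u⌋₊, G r) - a * (farey ⌊u⌋₊).card : ℝ) : ℂ) = Sh (cF G a) u := by
  rw [Sh_eq, sum_farey_mertens, t1_card_eq, Finset.mul_sum, ← Finset.sum_sub_distrib]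
  push_cast
  refine Finset.sum_congr rfl fun d _ => ?_
  rw [cF_apply, Mx_fl]
  push_cast
  ring

/-- the general quadrature criterion -/
theorem crit_farey {G : ℚ → ℝ} {a : ℝ} {k : ArithmeticFunction ℂ} (hk : cF G a * k = 1)
    (hs : Summable fun n : ℕ => ‖cF G a n‖ / √(n : ℝ)) (hsk : Summable fun n : ℕ => ‖k n‖ / √(n : ℝ)) :
    Crit (fun u => (((∑ r ∈ farey ⌊u⌋₊, G r) - a * (farey ⌊u⌋₊).card : ℝ) : ℂ))
      (fun ρ => ‖LSeries (fun n => cF G a n) ρ‖ ^ 2) := by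
  refine (crit hk hs hsk).congr (fun u _ => ?_) (fun ρ _ _ => ?_)
  · rw [farey_err]
  · rw [LS_eq]

/-! ## the second moment -/

lemma sum_sq_Icc (d : ℕ) : ∑ j ∈ Finset.Icc 1 d, (j : ℝ) = d * (d + 1) / 2 ∧
    ∑ j ∈ Finset.Icc 1 d, (j : ℝ) ^ 2 = d * (d + 1) * (2 * d + 1) / 6 := by
  induction d with
  | zero => simp
  | succ d ih =>
    obtain ⟨h1, h2⟩ := ih
    rw [Finset.sum_Icc_succ_top (by omega), Finset.sum_Icc_succ_top (by omega), h1, h2]
    push_cast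
    constructor <;> ring

/-- `t (1 - t)` -/
def Gq (r : ℚ) : ℝ := (r : ℝ) * (1 - (r : ℝ))

lemma cF_Gq {d : ℕ} (hd : 1 ≤ d) : cF Gq (1 / 6) d = -(1 / 6) / (d : ℂ) := by
  have hd0 : (d : ℝ) ≠ 0 := by
    have : (0 : ℝ) < d := by exact_mod_cast hd
    exact this.ne'
  have h1 : (∑ j ∈ Finset.Icc 1 d, Gq ((j : ℚ) / (d : ℚ))) - 1 / 6 * d = -(1 / 6) / (d : ℝ) := by
    have h2 : ∀ j ∈ Finset.Icc 1 d, Gq ((j : ℚ) / (d : ℚ)) = (1 / (d : ℝ)) * (j : ℝ) - (1 / (d : ℝ) ^ 2) * (j : ℝ) ^ 2 := by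
      intro j _
      unfold Gq
      push_cast
      field_simp
    rw [Finset.sum_congr rfl h2, Finset.sum_sub_distrib, ← Finset.mul_sum, ← Finset.mul_sum,
      (sum_sq_Icc d).1, (sum_sq_Icc d).2]
    field_simp
    ring
  rw [cF_apply, h1]
  push_cast
  rfl

/-- `-6 μ(n)/n` -/
noncomputable def kq : ArithmeticFunction ℂ :=
  ⟨fun n => -6 * ((ArithmeticFunction.moebius n : ℤ) : ℂ) / (n : ℂ), by simp⟩

lemma kq_apply (n : ℕ) : kq n = -6 * ((ArithmeticFunction.moebius n : ℤ) : ℂ) / (n : ℂ) := rfl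

lemma cF_mul_kq : cF Gq (1 / 6) * kq = 1 := by
  ext n
  rcases Nat.eq_zero_or_pos n with rfl | hn
  · simp
  have hnC : (n : ℂ) ≠ 0 := by exact_mod_cast hn.ne'
  rw [ArithmeticFunction.mul_apply]
  have h1 : ∀ x ∈ n.divisorsAntidiagonal, cF Gq (1 / 6) x.1 * kq x.2 =
      (1 / (n : ℂ)) * ((ArithmeticFunction.moebius x.2 : ℤ) : ℂ) := by
    rintro ⟨a, b⟩ hx
    rw [Nat.mem_divisorsAntidiagonal] at hx
    obtain ⟨h2, h3⟩ := hx
    simp only at h2
    have ha : a ≠ 0 := by rintro rfl; simp at h2; omega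
    have hb : b ≠ 0 := by rintro rfl; simp at h2; omega
    have haC : (a : ℂ) ≠ 0 := by exact_mod_cast ha
    have hbC : (b : ℂ) ≠ 0 := by exact_mod_cast hb
    simp only
    rw [cF_Gq (Nat.pos_of_ne_zero ha), kq_apply, ← h2]
    push_cast
    field_simp
  rw [Finset.sum_congr rfl h1, ← Finset.mul_sum]
  have h2 : ∑ x ∈ n.divisorsAntidiagonal, ((ArithmeticFunction.moebius x.2 : ℤ) : ℂ) = if n = 1 then 1 else 0 := by
    have h3 := congrArg (fun f : ArithmeticFunction ℂ => f n)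
      (ArithmeticFunction.coe_zeta_mul_coe_moebius (R := ℂ))
    simp only [ArithmeticFunction.mul_apply, ArithmeticFunction.one_apply] at h3
    rw [← h3]
    refine Finset.sum_congr rfl fun x hx => ?_
    have hx2 : x.1 ≠ 0 := by
      rw [Nat.mem_divisorsAntidiagonal] at hx
      rintro h0
      rw [h0] at hx
      simp at hx
      omega
    rw [ArithmeticFunction.natCoe_apply, ArithmeticFunction.zeta_apply_ne hx2, ArithmeticFunction.intCoe_apply]
    simp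
  rw [h2, ArithmeticFunction.one_apply]
  split_ifs with h
  · subst h
    simp
  · simp

lemma sum_three_halves : Summable fun n : ℕ => 1 / (n : ℝ) / √(n : ℝ) := by
  have h := Real.summable_nat_rpow.2 (show (-(3 / 2 : ℝ)) < -1 by norm_num)
  refine h.congr fun n => ?_
  rcases Nat.eq_zero_or_pos n with rfl | hn
  · simp
  have hn0 : (0 : ℝ) < n := by exact_mod_cast hn
  rw [Real.sqrt_eq_rpow, show (-(3 / 2 : ℝ)) = -(1 : ℝ) - 1 / 2 by norm_num, Real.rpow_sub hn0,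
    Real.rpow_neg_one, one_div (n : ℝ)]

lemma sq1 : Summable fun n : ℕ => ‖cF Gq (1 / 6) n‖ / √(n : ℝ) := by
  refine Summable.of_nonneg_of_le (fun n => by positivity) (fun n => ?_) sum_three_halves
  rcases Nat.eq_zero_or_pos n with rfl | hn
  · simp
  rw [cF_Gq hn, norm_div, norm_neg, Complex.norm_natCast]
  gcongr
  norm_num

lemma sq2 : Summable fun n : ℕ => ‖kq n‖ / √(n : ℝ) := by
  refine Summable.of_nonneg_of_le (fun n => by positivity) (fun n => ?_) (sum_three_halves.mul_left 6)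
  rw [kq_apply, norm_div, norm_mul, Complex.norm_natCast]
  have h1 : ‖((ArithmeticFunction.moebius n : ℤ) : ℂ)‖ ≤ 1 := by
    rw [Complex.norm_intCast]
    exact_mod_cast ArithmeticFunction.abs_moebius_le_one
  have h2 : ‖(-6 : ℂ)‖ = 6 := by simp
  rw [h2]
  calc 6 * ‖((ArithmeticFunction.moebius n : ℤ) : ℂ)‖ / (n : ℝ) / √(n : ℝ) ≤ 6 * 1 / (n : ℝ) / √(n : ℝ) := by
        gcongr
    _ = _ := by ring

lemma LSeries_cF {ρ : ℂ} (hρ : ρ.re = 1 / 2) :
    ‖LSeries (fun n => cF Gq (1 / 6) n) ρ‖ ^ 2 = ‖riemannZeta (1 + ρ)‖ ^ 2 / 36 := by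
  have hre : 1 < (1 + ρ).re := by
    rw [Complex.add_re, Complex.one_re, hρ]
    norm_num
  have h1 : LSeries (fun n => cF Gq (1 / 6) n) ρ = -(1 / 6) * riemannZeta (1 + ρ) := by
    rw [zeta_eq_tsum_one_div_nat_cpow hre, ← tsum_mul_left]
    unfold LSeries
    congr 1
    funext n
    rcases Nat.eq_zero_or_pos n with rfl | hn
    · rw [LSeries.term_zero, Nat.cast_zero, Complex.zero_cpow]
      · simp
      · intro h0
        rw [h0] at hre
        simp at hre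
        linarith
    · have hnC : (n : ℂ) ≠ 0 := by exact_mod_cast hn.ne'
      rw [LSeries.term_of_ne_zero hn.ne', cF_Gq hn, Complex.cpow_add _ _ hnC, Complex.cpow_one]
      have : (n : ℂ) ^ ρ ≠ 0 := by
        rw [Complex.cpow_ne_zero_iff]
        exact Or.inl hnC
      field_simp
  rw [h1, norm_mul, mul_pow]
  norm_num
  ring

theorem crit_second : Crit (fun u => (((∑ r ∈ farey ⌊u⌋₊, (r : ℝ) * (1 - (r : ℝ))) -
    1 / 6 * (farey ⌊u⌋₊).card : ℝ) : ℂ)) (fun ρ => ‖riemannZeta (1 + ρ)‖ ^ 2 / 36) :=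
  (crit_farey cF_mul_kq sq1 sq2).congr (fun _ _ => rfl) (fun ρ _ h => (LSeries_cF h).symm)

end Pool.Agent.R754.WX
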