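import Pool.Agent.R305.FM.F5

set_option autoImplicit false

/-! # Convolutions with a general absolutely summable weight on the logarithms of the integers -/

namespace Pool.Agent.R754.WX

open MeasureTheory Filter Topology Set
open H353.FB
open Pool.Agent.R305.FM (Ad cv cv_eq floor_mono part_meas shift_le fC fC_ad exp_div)

/-- the total mass -/
noncomputable def KC (c : ℕ → ℂ) : ℝ := ∑' m : ℕ, ‖c m‖

lemma KC_nonneg (c : ℕ → ℂ) : 0 ≤ KC c := tsum_nonneg fun _ => norm_nonneg _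

lemma sum_le {c : ℕ → ℂ} (hc : Summable fun m => ‖c m‖) (S : Finset ℕ) : ∑ m ∈ S, ‖c m‖ ≤ KC c :=
  hc.sum_le_tsum S fun _ _ => norm_nonneg _

lemma cv_ad {F : ℝ → ℂ} (hF : Ad F) {c : ℕ → ℂ} (hc : Summable fun m => ‖c m‖) : Ad (cv c F) := by
  refine ⟨?_, ?_, ?_⟩
  · refine measurable_of_tendsto_metrizable (f := fun N : ℕ => fun v : ℝ =>
      ∑ m ∈ Finset.Icc 1 N, c m * F (v - Real.log m)) (fun N => part_meas hF c N) ?_
    rw [tendsto_pi_nhds]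
    intro v
    refine tendsto_const_nhds.congr' ?_
    filter_upwards [eventually_ge_atTop ⌊Real.exp v⌋₊] with N hN
    exact cv_eq hF c hN
  · intro v hv
    unfold cv
    have : ⌊Real.exp v⌋₊ = 0 := by
      rw [Nat.floor_eq_zero]
      have := Real.exp_lt_exp.2 hv
      rwa [Real.exp_zero] at this
    rw [this]
    simp
  · intro V
    obtain ⟨B, hB0, hB⟩ := hF.bdd V
    refine ⟨KC c * B, mul_nonneg (KC_nonneg c) hB0, fun v hv => ?_⟩
    unfold cv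
    calc ‖∑ m ∈ Finset.Icc 1 ⌊Real.exp v⌋₊, c m * F (v - Real.log m)‖ ≤
        ∑ m ∈ Finset.Icc 1 ⌊Real.exp v⌋₊, ‖c m‖ * B := by
          refine norm_sum_le_of_le _ fun m hm => ?_
          rw [Finset.mem_Icc] at hm
          rw [norm_mul]
          have h1 : 0 ≤ Real.log m := Real.log_nonneg (by exact_mod_cast hm.1)
          exact mul_le_mul le_rfl (hB _ (by linarith)) (norm_nonneg _) (norm_nonneg _)
      _ = (∑ m ∈ Finset.Icc 1 ⌊Real.exp v⌋₊, ‖c m‖) * B := by rw [Finset.sum_mul]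
      _ ≤ KC c * B := mul_le_mul_of_nonneg_right (sum_le hc _) hB0

/-- Young's inequality -/
theorem young {F : ℝ → ℂ} (hF : Ad F) {c : ℕ → ℂ} (hc : Summable fun m => ‖c m‖) {V : ℝ} (hV : 0 ≤ V) :
    ∫ v in (0:ℝ)..V, ‖cv c F v‖ ^ 2 ≤ KC c ^ 2 * ∫ v in (0:ℝ)..V, ‖F v‖ ^ 2 := by
  set N := ⌊Real.exp V⌋₊ with hN
  have hpt : ∀ v ∈ Icc (0:ℝ) V, ‖cv c F v‖ ^ 2 ≤
      KC c * ∑ m ∈ Finset.Icc 1 N, ‖c m‖ * ‖F (v - Real.log m)‖ ^ 2 := by
    intro v hv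
    rw [cv_eq hF c (floor_mono hv.2)]
    have h1 : ‖∑ m ∈ Finset.Icc 1 N, c m * F (v - Real.log m)‖ ≤
        ∑ m ∈ Finset.Icc 1 N, ‖c m‖ * ‖F (v - Real.log m)‖ := by
      refine norm_sum_le_of_le _ fun m hm => ?_
      rw [norm_mul]
    have h2 : (∑ m ∈ Finset.Icc 1 N, ‖c m‖ * ‖F (v - Real.log m)‖) ^ 2 ≤
        (∑ m ∈ Finset.Icc 1 N, ‖c m‖) * ∑ m ∈ Finset.Icc 1 N, ‖c m‖ * ‖F (v - Real.log m)‖ ^ 2 := by
      apply Finset.sum_sq_le_sum_mul_sum_of_sq_eq_mul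
      · intro m _; exact norm_nonneg _
      · intro m _; positivity
      · intro m _; ring
    calc ‖∑ m ∈ Finset.Icc 1 N, c m * F (v - Real.log m)‖ ^ 2 ≤
        (∑ m ∈ Finset.Icc 1 N, ‖c m‖ * ‖F (v - Real.log m)‖) ^ 2 := by gcongr
      _ ≤ (∑ m ∈ Finset.Icc 1 N, ‖c m‖) * ∑ m ∈ Finset.Icc 1 N, ‖c m‖ * ‖F (v - Real.log m)‖ ^ 2 := h2
      _ ≤ _ := by
        apply mul_le_mul_of_nonneg_right (sum_le hc _)
        exact Finset.sum_nonneg fun m _ => by positivity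
  have hi : ∀ m ∈ Finset.Icc 1 N, IntervalIntegrable (fun v : ℝ => ‖c m‖ * ‖F (v - Real.log m)‖ ^ 2)
      volume 0 V := by
    intro m _
    apply IntervalIntegrable.const_mul
    have := (hF.int_sq (0 - Real.log m) (V - Real.log m)).comp_sub_right (Real.log m)
    simpa using this
  have hisum : IntervalIntegrable (fun v : ℝ => KC c * ∑ m ∈ Finset.Icc 1 N, ‖c m‖ * ‖F (v - Real.log m)‖ ^ 2)
      volume 0 V := by
    apply IntervalIntegrable.const_mul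
    have h := IntervalIntegrable.sum (Finset.Icc 1 N) hi
    have e : (∑ m ∈ Finset.Icc 1 N, fun v : ℝ => ‖c m‖ * ‖F (v - Real.log m)‖ ^ 2) =
        fun v => ∑ m ∈ Finset.Icc 1 N, ‖c m‖ * ‖F (v - Real.log m)‖ ^ 2 := by
      ext v; simp
    rw [← e]
    exact h
  refine (intervalIntegral.integral_mono_on hV ((cv_ad hF hc).int_sq 0 V) hisum hpt).trans ?_
  rw [intervalIntegral.integral_const_mul, intervalIntegral.integral_finsetSum hi]
  have hI0 : 0 ≤ ∫ v in (0:ℝ)..V, ‖F v‖ ^ 2 :=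
    intervalIntegral.integral_nonneg hV fun v _ => by positivity
  have h5 : ∑ m ∈ Finset.Icc 1 N, ∫ v in (0:ℝ)..V, ‖c m‖ * ‖F (v - Real.log m)‖ ^ 2 ≤
      ∑ m ∈ Finset.Icc 1 N, ‖c m‖ * ∫ v in (0:ℝ)..V, ‖F v‖ ^ 2 := by
    refine Finset.sum_le_sum fun m hm => ?_
    rw [Finset.mem_Icc] at hm
    rw [intervalIntegral.integral_const_mul]
    apply mul_le_mul_of_nonneg_left _ (norm_nonneg _)
    exact shift_le hF hV (Real.log_nonneg (by exact_mod_cast hm.1))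
  rw [← Finset.sum_mul] at h5
  have h6 : (∑ m ∈ Finset.Icc 1 N, ‖c m‖) * ∫ v in (0:ℝ)..V, ‖F v‖ ^ 2 ≤
      KC c * ∫ v in (0:ℝ)..V, ‖F v‖ ^ 2 := mul_le_mul_of_nonneg_right (sum_le hc _) hI0
  calc KC c * ∑ m ∈ Finset.Icc 1 N, ∫ v in (0:ℝ)..V, ‖c m‖ * ‖F (v - Real.log m)‖ ^ 2 ≤
      KC c * (KC c * ∫ v in (0:ℝ)..V, ‖F v‖ ^ 2) :=
        mul_le_mul_of_nonneg_left (h5.trans h6) (KC_nonneg c)
    _ = _ := by ring

/-! ## weights from arithmetic functions -/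

/-- `h(m) m^{-1/2}` -/
noncomputable def wgt (h : ArithmeticFunction ℂ) (m : ℕ) : ℂ := h m * (((m : ℝ) ^ (-(1 / 2 : ℝ)) : ℝ) : ℂ)

lemma wgt_mul (h k : ArithmeticFunction ℂ) (a b : ℕ) :
    wgt h a * wgt k b = h a * k b * ((((a * b : ℕ) : ℝ) ^ (-(1 / 2 : ℝ)) : ℝ) : ℂ) := by
  unfold wgt
  push_cast
  rw [Real.mul_rpow (Nat.cast_nonneg a) (Nat.cast_nonneg b)]
  push_cast
  ring

/-- convolutions compose -/
lemma cv_cv (h k : ArithmeticFunction ℂ) {F : ℝ → ℂ} (v : ℝ) :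
    cv (wgt k) (cv (wgt h) F) v = cv (wgt (k * h)) F v := by
  unfold cv
  set n := ⌊Real.exp v⌋₊ with hn
  have h2 : ∀ m ∈ Finset.Icc 1 n, wgt k m * ∑ l ∈ Finset.Icc 1 ⌊Real.exp (v - Real.log m)⌋₊,
      wgt h l * F (v - Real.log m - Real.log l) =
      ∑ l ∈ Finset.Icc 1 (n / m), k m * h l * (((((m * l : ℕ) : ℝ)) ^ (-(1 / 2 : ℝ)) : ℝ) : ℂ) *
        F (v - Real.log ((m * l : ℕ) : ℝ)) := by
    intro m hm
    rw [Finset.mem_Icc] at hm
    rw [exp_div hm.1, Nat.floor_div_natCast, ← hn, Finset.mul_sum]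
    refine Finset.sum_congr rfl fun l hl => ?_
    rw [Finset.mem_Icc] at hl
    have hm0 : (m : ℝ) ≠ 0 := by exact_mod_cast (show m ≠ 0 by omega)
    have hl0 : (l : ℝ) ≠ 0 := by exact_mod_cast (show l ≠ 0 by omega)
    rw [← mul_assoc, wgt_mul]
    congr 2
    push_cast
    rw [Real.log_mul hm0 hl0]
    ring
  rw [Finset.sum_congr rfl h2]
  -- regroup
  have key : ∀ g : ℕ → ℕ → ℂ, ∑ m ∈ Finset.Icc 1 n, ∑ l ∈ Finset.Icc 1 (n / m), g m l =
      ∑ j ∈ Finset.Icc 1 n, ∑ p ∈ j.divisorsAntidiagonal, g p.1 p.2 := by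
    intro g
    rw [Finset.sum_sigma', Finset.sum_sigma']
    refine Finset.sum_bij' (fun p _ => (⟨p.1 * p.2, (p.1, p.2)⟩ : (_ : ℕ) × (ℕ × ℕ)))
      (fun q _ => (⟨q.2.1, q.2.2⟩ : (_ : ℕ) × ℕ)) ?_ ?_ ?_ ?_ ?_
    · rintro ⟨m, l⟩ hp
      simp only [Finset.mem_sigma, Finset.mem_Icc, Nat.mem_divisorsAntidiagonal] at hp ⊢
      obtain ⟨⟨h1, h2⟩, h3, h4⟩ := hp
      have h5 : m * l ≤ n := by
        rw [mul_comm]
        exact (Nat.le_div_iff_mul_le (by omega)).1 h4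
      have h6 : 1 ≤ m * l := Nat.mul_pos h1 h3
      exact ⟨⟨h6, h5⟩, trivial, by omega⟩
    · rintro ⟨j, m, l⟩ hp
      simp only [Finset.mem_sigma, Finset.mem_Icc, Nat.mem_divisorsAntidiagonal] at hp ⊢
      obtain ⟨⟨h1, h2⟩, h3, h4⟩ := hp
      have hm : 0 < m := Nat.pos_of_ne_zero (by rintro rfl; simp at h3; omega)
      have hl : 0 < l := Nat.pos_of_ne_zero (by rintro rfl; simp at h3; omega)
      refine ⟨⟨hm, ?_⟩, hl, ?_⟩
      · exact (Nat.le_mul_of_pos_right m hl).trans (h3.le.trans h2)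
      · rw [Nat.le_div_iff_mul_le hm, mul_comm]
        omega
    · rintro ⟨m, l⟩ _
      rfl
    · rintro ⟨j, m, l⟩ hp
      simp only [Finset.mem_sigma, Finset.mem_Icc, Nat.mem_divisorsAntidiagonal] at hp
      obtain ⟨-, h3, -⟩ := hp
      subst h3
      rfl
    · rintro ⟨m, l⟩ _
      rfl
  rw [key]
  refine Finset.sum_congr rfl fun j hj => ?_
  unfold wgt
  rw [ArithmeticFunction.mul_apply, Finset.sum_mul, Finset.sum_mul]
  refine Finset.sum_congr rfl fun p hp => ?_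
  rw [Nat.mem_divisorsAntidiagonal] at hp
  rw [hp.1]

lemma cv_one {F : ℝ → ℂ} (hF : Ad F) (v : ℝ) : cv (wgt 1) F v = F v := by
  unfold cv wgt
  rcases lt_or_ge v 0 with hv | hv
  · have : ⌊Real.exp v⌋₊ = 0 := by
      rw [Nat.floor_eq_zero]
      have := Real.exp_lt_exp.2 hv
      rwa [Real.exp_zero] at this
    rw [this, hF.neg v hv]
    simp
  · have h1 : 1 ∈ Finset.Icc 1 ⌊Real.exp v⌋₊ := by
      rw [Finset.mem_Icc]
      exact ⟨le_rfl, Nat.le_floor (by exact_mod_cast Real.one_le_exp hv)⟩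
    rw [Finset.sum_eq_single_of_mem 1 h1]
    · simp
    · intro m _ hm
      rw [ArithmeticFunction.one_apply_ne hm]
      simp

/-- inversion -/
lemma cv_inv {h k : ArithmeticFunction ℂ} (hk : h * k = 1) {F : ℝ → ℂ} (hF : Ad F) :
    cv (wgt k) (cv (wgt h) F) = F := by
  funext v
  rw [cv_cv, mul_comm k h, hk, cv_one hF]

/-- the summatory function of `μ * h` -/
noncomputable def Sh (h : ArithmeticFunction ℂ) (u : ℝ) : ℂ :=
  ∑ n ∈ Finset.Icc 1 ⌊u⌋₊, (((ArithmeticFunction.moebius : ArithmeticFunction ℤ) : ArithmeticFunction ℂ) * h) n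

lemma Sh_eq (h : ArithmeticFunction ℂ) (u : ℝ) :
    Sh h u = ∑ m ∈ Finset.Icc 1 ⌊u⌋₊, h m * ((Mx (u / m) : ℝ) : ℂ) := by
  unfold Sh
  set n := ⌊u⌋₊ with hn
  have h1 : ∀ m ∈ Finset.Icc 1 n, h m * ((Mx (u / m) : ℝ) : ℂ) =
      ∑ l ∈ Finset.Icc 1 (n / m), h m * ((ArithmeticFunction.moebius l : ℤ) : ℂ) := by
    intro m hm
    unfold Mx mu
    rw [Nat.floor_div_natCast, ← hn, ← Finset.mul_sum]
    push_cast
    rfl
  rw [Finset.sum_congr rfl h1]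
  have key : ∀ g : ℕ → ℕ → ℂ, ∑ m ∈ Finset.Icc 1 n, ∑ l ∈ Finset.Icc 1 (n / m), g m l =
      ∑ j ∈ Finset.Icc 1 n, ∑ p ∈ j.divisorsAntidiagonal, g p.2 p.1 := by
    intro g
    rw [Finset.sum_sigma', Finset.sum_sigma']
    refine Finset.sum_bij' (fun p _ => (⟨p.2 * p.1, (p.2, p.1)⟩ : (_ : ℕ) × (ℕ × ℕ)))
      (fun q _ => (⟨q.2.2, q.2.1⟩ : (_ : ℕ) × ℕ)) ?_ ?_ ?_ ?_ ?_
    · rintro ⟨m, l⟩ hp
      simp only [Finset.mem_sigma, Finset.mem_Icc, Nat.mem_divisorsAntidiagonal] at hp ⊢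
      obtain ⟨⟨h1, h2⟩, h3, h4⟩ := hp
      have h5 : l * m ≤ n := (Nat.le_div_iff_mul_le (by omega)).1 h4
      have h6 : 1 ≤ l * m := Nat.mul_pos h3 h1
      exact ⟨⟨h6, h5⟩, trivial, by omega⟩
    · rintro ⟨j, m, l⟩ hp
      simp only [Finset.mem_sigma, Finset.mem_Icc, Nat.mem_divisorsAntidiagonal] at hp ⊢
      obtain ⟨⟨h1, h2⟩, h3, h4⟩ := hp
      have hm : 0 < m := Nat.pos_of_ne_zero (by rintro rfl; simp at h3; omega)
      have hl : 0 < l := Nat.pos_of_ne_zero (by rintro rfl; simp at h3; omega)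
      refine ⟨⟨hl, ?_⟩, hm, ?_⟩
      · exact (Nat.le_mul_of_pos_left l hm).trans (h3.le.trans h2)
      · rw [Nat.le_div_iff_mul_le hl]
        omega
    · rintro ⟨m, l⟩ _
      rfl
    · rintro ⟨j, m, l⟩ hp
      simp only [Finset.mem_sigma, Finset.mem_Icc, Nat.mem_divisorsAntidiagonal] at hp
      obtain ⟨-, h3, -⟩ := hp
      subst h3
      rfl
    · rintro ⟨m, l⟩ _
      rfl
  rw [key]
  refine Finset.sum_congr rfl fun j hj => ?_
  rw [ArithmeticFunction.mul_apply]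
  refine Finset.sum_congr rfl fun p _ => ?_
  rw [mul_comm]
  rfl

/-- `g(v) = S_h(e^v) e^{-v/2}` -/
noncomputable def gC (h : ArithmeticFunction ℂ) (v : ℝ) : ℂ := Sh h (Real.exp v) * ((Real.exp (-(v / 2)) : ℝ) : ℂ)

lemma exp_half {v : ℝ} {m : ℕ} (hm : 1 ≤ m) :
    (m : ℝ) ^ (-(1 / 2 : ℝ)) * Real.exp (-((v - Real.log m) / 2)) = Real.exp (-(v / 2)) := by
  have hm0 : (0 : ℝ) < m := by exact_mod_cast hm
  rw [Real.rpow_def_of_pos hm0, ← Real.exp_add]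
  congr 1
  ring

lemma gC_eq (h : ArithmeticFunction ℂ) : gC h = cv (wgt h) fC := by
  funext v
  unfold gC cv fC wgt
  rw [Sh_eq, Finset.sum_mul]
  refine Finset.sum_congr rfl fun m hm => ?_
  rw [Finset.mem_Icc] at hm
  rw [exp_div hm.1]
  have h1 := exp_half (v := v) hm.1
  have h2 : ((((m : ℝ) ^ (-(1 / 2 : ℝ)) : ℝ)) : ℂ) * ((Real.exp (-((v - Real.log m) / 2)) : ℝ) : ℂ) =
      ((Real.exp (-(v / 2)) : ℝ) : ℂ) := by rw [← h1]; push_cast; ring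
  rw [← h2]
  push_cast
  ring

lemma wgt_norm (h : ArithmeticFunction ℂ) (m : ℕ) : ‖wgt h m‖ = ‖h m‖ / √(m : ℝ) := by
  unfold wgt
  rw [norm_mul, Complex.norm_real, Real.norm_of_nonneg (by positivity), Real.rpow_neg (Nat.cast_nonneg m),
    Real.sqrt_eq_rpow, div_eq_mul_inv ‖h m‖]

lemma wgt_summable {h : ArithmeticFunction ℂ} (hs : Summable fun n : ℕ => ‖h n‖ / √(n : ℝ)) :
    Summable fun m => ‖wgt h m‖ := by
  simpa only [wgt_norm] using hs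

end Pool.Agent.R754.WX
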