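import Mathlib

set_option autoImplicit false

/-! # Weighted Moebius functions -/

namespace Pool.Agent.R754.WX

open Filter Topology ArithmeticFunction
open scoped ArithmeticFunction.Moebius ArithmeticFunction.zeta

/-- the completely multiplicative function with the values `g p` at the primes -/
noncomputable def GG (g : ℕ → ℂ) : ArithmeticFunction ℂ :=
  ⟨fun n => if n = 0 then 0 else n.factorization.prod fun p e => g p ^ e, by simp⟩

variable {g : ℕ → ℂ}

lemma GG_apply {n : ℕ} (hn : n ≠ 0) : GG g n = n.factorization.prod fun p e => g p ^ e := by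
  show (if n = 0 then 0 else n.factorization.prod fun p e => g p ^ e) = _
  rw [if_neg hn]

lemma GG_one : GG g 1 = 1 := by
  rw [GG_apply one_ne_zero]
  simp

lemma GG_mul {a b : ℕ} (ha : a ≠ 0) (hb : b ≠ 0) : GG g (a * b) = GG g a * GG g b := by
  rw [GG_apply (mul_ne_zero ha hb), GG_apply ha, GG_apply hb, Nat.factorization_mul ha hb]
  exact Finsupp.prod_add_index' (fun p => pow_zero _) (fun p e f => pow_add _ _ _)

lemma GG_prime {p : ℕ} (hp : p.Prime) : GG g p = g p := by
  rw [GG_apply hp.ne_zero, hp.factorization]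
  rw [Finsupp.prod_single_index (h := fun p e => g p ^ e) (pow_zero (g p)), pow_one]

lemma GG_pow {p : ℕ} (hp : p.Prime) (j : ℕ) : GG g (p ^ j) = g p ^ j := by
  induction j with
  | zero => simpa using GG_one
  | succ j ih => rw [pow_succ, GG_mul (pow_ne_zero _ hp.ne_zero) hp.ne_zero, ih, GG_prime hp, pow_succ]

lemma GG_sqfree {n : ℕ} (hn : Squarefree n) : GG g n = ∏ p ∈ n.primeFactors, g p := by
  rw [GG_apply hn.ne_zero, Finsupp.prod, Nat.support_factorization]
  refine Finset.prod_congr rfl fun p hp => ?_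
  have h1 : n.factorization p = 1 := by
    have h2 := hn.natFactorization_le_one p
    have h3 := (Nat.prime_of_mem_primeFactors hp).factorization_pos_of_dvd hn.ne_zero
      (Nat.dvd_of_mem_primeFactors hp)
    omega
  rw [h1, pow_one]

lemma GG_mult (g : ℕ → ℂ) : (GG g).IsMultiplicative := by
  rw [ArithmeticFunction.IsMultiplicative.iff_ne_zero]
  exact ⟨GG_one, fun ha hb _ => GG_mul ha hb⟩

/-- `μ(n) ∏_{p ∣ n} g(p)` -/
noncomputable def muG (g : ℕ → ℂ) : ArithmeticFunction ℂ :=
  ((μ : ArithmeticFunction ℤ) : ArithmeticFunction ℂ).pmul (GG g)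

lemma muG_apply (n : ℕ) : muG g n = ((μ n : ℤ) : ℂ) * ∏ p ∈ n.primeFactors, g p := by
  unfold muG
  rw [pmul_apply, intCoe_apply]
  by_cases h : Squarefree n
  · rw [GG_sqfree h]
  · rw [moebius_eq_zero_of_not_squarefree h]
    simp

lemma muG_mul_GG : muG g * GG g = 1 := by
  ext n
  rcases Nat.eq_zero_or_pos n with rfl | hn
  · simp
  rw [mul_apply]
  have h1 : ∀ x ∈ n.divisorsAntidiagonal, muG g x.1 * GG g x.2 = ((μ x.1 : ℤ) : ℂ) * GG g n := by
    rintro ⟨a, b⟩ hx
    rw [Nat.mem_divisorsAntidiagonal] at hx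
    obtain ⟨h2, h3⟩ := hx
    have ha : a ≠ 0 := by rintro rfl; simp at h2; omega
    have hb : b ≠ 0 := by rintro rfl; simp at h2; omega
    unfold muG
    simp only [pmul_apply, intCoe_apply]
    simp only at h2
    rw [← h2, GG_mul ha hb, mul_assoc]
  rw [Finset.sum_congr rfl h1, ← Finset.sum_mul]
  have h2 : ∑ x ∈ n.divisorsAntidiagonal, ((μ x.1 : ℤ) : ℂ) = if n = 1 then 1 else 0 := by
    have h3 := congrArg (fun f : ArithmeticFunction ℂ => f n)
      (coe_moebius_mul_coe_zeta (R := ℂ))
    simp only [mul_apply, one_apply] at h3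
    rw [← h3]
    refine Finset.sum_congr rfl fun x hx => ?_
    have hx2 : x.2 ≠ 0 := by
      rw [Nat.mem_divisorsAntidiagonal] at hx
      rintro h0
      rw [h0] at hx
      simp at hx
      omega
    rw [natCoe_apply, zeta_apply_ne hx2, intCoe_apply]
    simp
  rw [h2, one_apply]
  split_ifs with h
  · subst h
    simp [GG_one]
  · simp

/-- the multiplier -/
noncomputable def hG (g : ℕ → ℂ) : ArithmeticFunction ℂ := ((ζ : ArithmeticFunction ℕ) : ArithmeticFunction ℂ) * muG g

/-- its inverse -/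
noncomputable def kG (g : ℕ → ℂ) : ArithmeticFunction ℂ := GG g * ((μ : ArithmeticFunction ℤ) : ArithmeticFunction ℂ)

lemma hG_mul_kG : hG g * kG g = 1 := by
  unfold hG kG
  rw [show ((ζ : ArithmeticFunction ℕ) : ArithmeticFunction ℂ) * muG g * (GG g *
    ((μ : ArithmeticFunction ℤ) : ArithmeticFunction ℂ)) = (muG g * GG g) *
    (((μ : ArithmeticFunction ℤ) : ArithmeticFunction ℂ) * ((ζ : ArithmeticFunction ℕ) : ArithmeticFunction ℂ)) by ring,
    muG_mul_GG, coe_moebius_mul_coe_zeta, mul_one]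

lemma mu_mul_hG : ((μ : ArithmeticFunction ℤ) : ArithmeticFunction ℂ) * hG g = muG g := by
  unfold hG
  rw [← mul_assoc, coe_moebius_mul_coe_zeta, one_mul]

lemma muG_mult (g : ℕ → ℂ) : (muG g).IsMultiplicative :=
  isMultiplicative_moebius.intCast.pmul (GG_mult g)

lemma hG_mult (g : ℕ → ℂ) : (hG g).IsMultiplicative :=
  isMultiplicative_zeta.natCast.mul (muG_mult g)

lemma kG_mult (g : ℕ → ℂ) : (kG g).IsMultiplicative :=
  (GG_mult g).mul isMultiplicative_moebius.intCast

lemma hG_pp {p : ℕ} (hp : p.Prime) (j : ℕ) : hG g (p ^ (j + 1)) = 1 - g p := by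
  unfold hG
  rw [coe_zeta_mul_apply, Nat.divisors_prime_pow hp, Finset.sum_map]
  have h1 : Finset.range 2 ⊆ Finset.range (j + 1 + 1) := by
    intro i hi
    rw [Finset.mem_range] at hi ⊢
    omega
  rw [← Finset.sum_subset h1]
  · rw [Finset.sum_range_succ, Finset.sum_range_one]
    simp only [Function.Embedding.coeFn_mk, pow_zero, pow_one]
    unfold muG
    simp only [pmul_apply, intCoe_apply, moebius_apply_one, GG_one, moebius_apply_prime hp, GG_prime hp]
    push_cast
    ring
  · intro i _ hi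
    rw [Finset.mem_range] at hi
    simp only [Function.Embedding.coeFn_mk]
    unfold muG
    rw [pmul_apply, intCoe_apply, moebius_apply_prime_pow hp (by omega), if_neg (by omega)]
    simp

lemma kG_pp {p : ℕ} (hp : p.Prime) (j : ℕ) : kG g (p ^ (j + 1)) = g p ^ j * (g p - 1) := by
  unfold kG
  rw [mul_comm, mul_apply, Nat.sum_divisorsAntidiagonal (f := fun a b =>
    ((μ : ArithmeticFunction ℤ) : ArithmeticFunction ℂ) a * GG g b), Nat.divisors_prime_pow hp,
    Finset.sum_map]
  have h1 : Finset.range 2 ⊆ Finset.range (j + 1 + 1) := by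
    intro i hi
    rw [Finset.mem_range] at hi ⊢
    omega
  rw [← Finset.sum_subset h1]
  · rw [Finset.sum_range_succ, Finset.sum_range_one]
    simp only [Function.Embedding.coeFn_mk, pow_zero, pow_one]
    have h2 : p ^ (j + 1) / p = p ^ j := by
      rw [pow_succ]
      exact Nat.mul_div_cancel _ hp.pos
    rw [h2, Nat.div_one]
    simp only [intCoe_apply, moebius_apply_one, moebius_apply_prime hp, GG_pow hp]
    push_cast
    ring
  · intro i _ hi
    rw [Finset.mem_range] at hi
    simp only [Function.Embedding.coeFn_mk]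
    rw [intCoe_apply, moebius_apply_prime_pow hp (by omega), if_neg (by omega)]
    simp

/-! ## summability of multiplicative functions -/

lemma summable_of_mult {f : ℕ → ℝ} (h0 : f 0 = 0) (h1 : f 1 = 1)
    (hm : ∀ {a b : ℕ}, a.Coprime b → f (a * b) = f a * f b) (hn : ∀ n, 0 ≤ f n)
    (hp : ∀ {p : ℕ}, p.Prime → Summable fun j : ℕ => f (p ^ j))
    (hs : Summable fun p : Nat.Primes => ∑' j : ℕ, f ((p : ℕ) ^ (j + 1))) : Summable f := by
  classical
  set T : ℕ → ℝ := fun p => ∑' j : ℕ, f (p ^ (j + 1)) with hT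
  have hT0 : ∀ p, 0 ≤ T p := fun p => tsum_nonneg fun j => hn _
  refine summable_of_sum_le hn (c := Real.exp (∑' p : Nat.Primes, T p)) fun u => ?_
  obtain ⟨N, hN⟩ : ∃ N : ℕ, ∀ n ∈ u, n < N := by
    refine ⟨u.sup id + 1, fun n hn => ?_⟩
    have : id n ≤ u.sup id := Finset.le_sup hn
    simp only [id] at this
    omega
  have hnorm : ∀ {p : ℕ}, p.Prime → Summable fun n : ℕ => ‖f (p ^ n)‖ := fun {p} hpp => by
    simpa only [Real.norm_of_nonneg (hn _)] using hp hpp
  have hE := EulerProduct.summable_and_hasSum_factoredNumbers_prod_filter_prime_tsum (R := ℝ) (f := f) h1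
    (fun {m n} h => hm h) hnorm (Finset.range N)
  have hsumm : Summable fun m : Nat.factoredNumbers (Finset.range N) => f m := hE.2.summable
  have h3 : ∑ n ∈ u, f n ≤ ∏ p ∈ (Finset.range N).filter Nat.Prime, ∑' n : ℕ, f (p ^ n) := by
    rw [← hE.2.tsum_eq]
    have h4 : ∑ n ∈ u, f n = ∑ n ∈ u.filter (fun n => n ∈ Nat.factoredNumbers (Finset.range N)), f n := by
      rw [Finset.sum_filter]
      refine Finset.sum_congr rfl fun n hnu => ?_
      split_ifs with h
      · rfl
      · have : n = 0 := by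
          by_contra hne
          apply h
          rw [Nat.mem_factoredNumbers]
          refine ⟨hne, fun p hpn => ?_⟩
          rw [Finset.mem_range]
          exact (Nat.le_of_mem_primeFactorsList hpn).trans_lt (hN n hnu)
        rw [this, h0]
    rw [h4]
    have h5 : ∑ n ∈ u.filter (fun n => n ∈ Nat.factoredNumbers (Finset.range N)), f n =
        ∑ m ∈ u.subtype (fun n => n ∈ Nat.factoredNumbers (Finset.range N)), f m := by
      rw [Finset.sum_subtype_eq_sum_filter]
    rw [h5]
    exact hsumm.sum_le_tsum _ fun m _ => hn m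
  refine h3.trans ?_
  have h6 : ∀ p ∈ (Finset.range N).filter Nat.Prime, ∑' n : ℕ, f (p ^ n) ≤ Real.exp (T p) := by
    intro p hpm
    rw [Finset.mem_filter] at hpm
    have h7 := (hp hpm.2).sum_add_tsum_nat_add 1
    rw [Finset.sum_range_one, pow_zero, h1] at h7
    rw [← h7]
    have := Real.add_one_le_exp (T p)
    linarith
  refine (Finset.prod_le_prod (fun p _ => tsum_nonneg fun n => hn _) h6).trans ?_
  rw [← Real.exp_sum]
  apply Real.exp_le_exp.2
  have h8 : ∑ p ∈ (Finset.range N).filter Nat.Prime, T p =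
      ∑ p ∈ (Finset.range N).subtype Nat.Prime, T (p : ℕ) := by
    rw [Finset.sum_subtype_eq_sum_filter]
  rw [h8]
  have hs' : Summable fun p : {p : ℕ // p.Prime} => T (p : ℕ) := hs
  have h9 : ∑ p ∈ (Finset.range N).subtype Nat.Prime, T (p : ℕ) ≤ ∑' p : {p : ℕ // p.Prime}, T (p : ℕ) :=
    hs'.sum_le_tsum _ fun p _ => hT0 p
  exact h9

end Pool.Agent.R754.WX
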