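import Pool.Agent.R754.WX.Sm

set_option autoImplicit false

/-! # The product formula for the multiplier -/

namespace Pool.Agent.R754.WX

open Filter Topology ArithmeticFunction
open scoped ArithmeticFunction.Moebius ArithmeticFunction.zeta

variable {g : ℕ → ℂ}

lemma pow_cpow (p : ℕ) (e : ℕ) (ρ : ℂ) : (((p ^ e : ℕ) : ℂ)) ^ ρ = ((p : ℂ) ^ ρ) ^ e := by
  induction e with
  | zero => simp
  | succ e ih =>
    rw [pow_succ, pow_succ, ← ih, Nat.cast_mul, Complex.natCast_mul_natCast_cpow]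

lemma prime_cpow_norm {p : ℕ} (hp : p.Prime) {ρ : ℂ} (hρ : ρ.re = 1 / 2) :
    ‖(p : ℂ) ^ (-ρ)‖ = (√(p : ℝ))⁻¹ := by
  have hp0 : (0 : ℝ) < p := by exact_mod_cast hp.pos
  rw [← Complex.ofReal_natCast, Complex.norm_cpow_eq_rpow_re_of_pos hp0, Complex.neg_re, hρ,
    Real.rpow_neg hp0.le, Real.sqrt_eq_rpow]

theorem LSeries_hG (hs : Summable fun p : Nat.Primes => ‖1 - g p‖ / √(p : ℝ)) {ρ : ℂ} (hρ : ρ.re = 1 / 2) :
    LSeries (fun n => hG g n) ρ =
      ∏' p : Nat.Primes, (1 - g p * (p : ℂ) ^ (-ρ)) / (1 - (p : ℂ) ^ (-ρ)) := by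
  have hsum : Summable fun n : ℕ => ‖LSeries.term (fun n => hG g n) ρ n‖ := by
    refine (hG_summable hs).congr fun n => ?_
    rw [LSeries.norm_term_eq, hρ, ← Real.sqrt_eq_rpow]
    split_ifs with h
    · subst h
      simp
    · rfl
  have h1 : LSeries.term (fun n => hG g n) ρ 1 = 1 := by
    rw [LSeries.term_of_ne_zero one_ne_zero, (hG_mult g).map_one]
    simp
  have hm : ∀ {m n : ℕ}, Nat.Coprime m n → LSeries.term (fun n => hG g n) ρ (m * n) =
      LSeries.term (fun n => hG g n) ρ m * LSeries.term (fun n => hG g n) ρ n := by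
    intro m n hmn
    rcases Nat.eq_zero_or_pos m with rfl | hm0
    · simp
    rcases Nat.eq_zero_or_pos n with rfl | hn0
    · simp
    rw [LSeries.term_of_ne_zero (mul_ne_zero hm0.ne' hn0.ne'), LSeries.term_of_ne_zero hm0.ne',
      LSeries.term_of_ne_zero hn0.ne', (hG_mult g).map_mul_of_coprime hmn, Nat.cast_mul,
      Complex.natCast_mul_natCast_cpow, div_mul_div_comm]
  have h2 := EulerProduct.eulerProduct_tprod (f := LSeries.term (fun n => hG g n) ρ) h1 hm hsum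
    (LSeries.term_zero _ _)
  unfold LSeries
  rw [← h2]
  congr 1
  funext p
  have hp := p.2
  obtain ⟨z, hz⟩ : ∃ z : ℂ, z = ((p : ℕ) : ℂ) ^ (-ρ) := ⟨_, rfl⟩
  have hzn : ‖z‖ < 1 := by
    rw [hz, prime_cpow_norm hp hρ]
    linarith [(sqrt_prime_inv hp).2]
  have hz1 : 1 - z ≠ 0 := by
    intro h
    have : z = 1 := by linear_combination -h
    rw [this] at hzn
    simp at hzn
  have hinv : (((p : ℕ) : ℂ) ^ ρ)⁻¹ = z := by rw [hz, Complex.cpow_neg]
  have hterm : ∀ e : ℕ, LSeries.term (fun n => hG g n) ρ ((p : ℕ) ^ (e + 1)) = (1 - g p) * z * z ^ e := by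
    intro e
    rw [LSeries.term_of_ne_zero (pow_ne_zero _ hp.ne_zero), hG_pp hp, pow_cpow, div_eq_mul_inv, ← inv_pow, hinv]
    ring
  have h3 : HasSum (fun e : ℕ => LSeries.term (fun n => hG g n) ρ ((p : ℕ) ^ (e + 1)))
      ((1 - g p) * z * (1 - z)⁻¹) := by
    simp_rw [hterm]
    exact (hasSum_geometric_of_norm_lt_one hzn).mul_left _
  have h4 := (hasSum_nat_add_iff (f := fun e : ℕ => LSeries.term (fun n => hG g n) ρ ((p : ℕ) ^ e)) 1).1 h3
  rw [h4.tsum_eq, Finset.sum_range_one, pow_zero, h1, ← hz]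
  field_simp
  ring

end Pool.Agent.R754.WX
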