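import Pool.Agent.R754.WX.Mult

set_option autoImplicit false

/-! # Summability of the multipliers -/

namespace Pool.Agent.R754.WX

open Filter Topology ArithmeticFunction
open scoped ArithmeticFunction.Moebius ArithmeticFunction.zeta

variable {g : ℕ → ℂ}

lemma sqrt_prime_inv {p : ℕ} (hp : p.Prime) : 0 < (√(p : ℝ))⁻¹ ∧ (√(p : ℝ))⁻¹ ≤ 71 / 100 := by
  have h2 : (2 : ℝ) ≤ p := by exact_mod_cast hp.two_le
  have h3 : (100 / 71 : ℝ) ≤ √(p : ℝ) := by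
    apply Real.le_sqrt_of_sq_le
    norm_num
    linarith
  have h4 : 0 < √(p : ℝ) := by linarith
  refine ⟨by positivity, ?_⟩
  rw [inv_le_comm₀ h4 (by norm_num)]
  norm_num
  exact h3

lemma sqrt_pow (p : ℕ) (j : ℕ) : √(((p ^ j : ℕ) : ℝ)) = √(p : ℝ) ^ j := by
  push_cast
  rw [Real.sqrt_eq_iff_mul_self_eq (by positivity) (by positivity), ← mul_pow,
    Real.mul_self_sqrt (Nat.cast_nonneg p)]

lemma norm_mult {f : ArithmeticFunction ℂ} (hf : f.IsMultiplicative) {a b : ℕ} (h : a.Coprime b) :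
    ‖f (a * b)‖ / √((a * b : ℕ) : ℝ) = ‖f a‖ / √(a : ℝ) * (‖f b‖ / √(b : ℝ)) := by
  rw [hf.map_mul_of_coprime h, norm_mul]
  push_cast
  rw [Real.sqrt_mul (Nat.cast_nonneg a)]
  rw [div_mul_div_comm]

/-- the general criterion: values `a p * y p ^ j` at `p ^ (j + 1)` -/
lemma summable_gen {f : ArithmeticFunction ℂ} (hf : f.IsMultiplicative) {a y : ℕ → ℝ}
    (ha : ∀ p, 0 ≤ a p) (hy : ∀ p : ℕ, p.Prime → 0 ≤ y p ∧ y p < 1)
    (hv : ∀ p : ℕ, p.Prime → ∀ j : ℕ, ‖f (p ^ (j + 1))‖ / √((p ^ (j + 1) : ℕ) : ℝ) = a p * y p ^ j)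
    (hs : Summable fun p : Nat.Primes => a p * (1 - y p)⁻¹) :
    Summable fun n : ℕ => ‖f n‖ / √(n : ℝ) := by
  have hgeo : ∀ p : ℕ, p.Prime → HasSum (fun j : ℕ => ‖f (p ^ (j + 1))‖ / √((p ^ (j + 1) : ℕ) : ℝ))
      (a p * (1 - y p)⁻¹) := by
    intro p hp
    have h1 := (hasSum_geometric_of_lt_one (hy p hp).1 (hy p hp).2).mul_left (a p)
    simpa only [hv p hp] using h1
  apply summable_of_mult
  · simp
  · simp [hf.map_one]
  · intro a b h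
    exact norm_mult hf h
  · intro n
    positivity
  · intro p hp
    rw [← summable_nat_add_iff 1]
    exact (hgeo p hp).summable
  · refine hs.congr fun p => ?_
    exact (hgeo p p.2).tsum_eq.symm

theorem hG_summable (hs : Summable fun p : Nat.Primes => ‖1 - g p‖ / √(p : ℝ)) :
    Summable fun n : ℕ => ‖hG g n‖ / √(n : ℝ) := by
  refine summable_gen (hG_mult g) (a := fun p => ‖1 - g p‖ * (√(p : ℝ))⁻¹) (y := fun p => (√(p : ℝ))⁻¹)
    (fun p => by positivity) (fun p hp => ⟨(sqrt_prime_inv hp).1.le, by linarith [(sqrt_prime_inv hp).2]⟩)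
    (fun p hp j => ?_) ?_
  · rw [hG_pp hp, sqrt_pow, pow_succ, div_eq_mul_inv, mul_inv, inv_pow]
    ring
  · refine Summable.of_nonneg_of_le (fun p => ?_) (fun p => ?_) (hs.mul_left 4)
    · have := (sqrt_prime_inv p.2).2
      have : 0 ≤ 1 - (√((p : ℕ) : ℝ))⁻¹ := by linarith
      positivity
    · have h1 := (sqrt_prime_inv p.2).2
      have h2 : (1 - (√((p : ℕ) : ℝ))⁻¹)⁻¹ ≤ 4 := by
        rw [inv_le_comm₀ (by linarith) (by norm_num)]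
        linarith
      have h3 : 0 ≤ ‖1 - g p‖ * (√((p : ℕ) : ℝ))⁻¹ := by positivity
      calc ‖1 - g p‖ * (√((p : ℕ) : ℝ))⁻¹ * (1 - (√((p : ℕ) : ℝ))⁻¹)⁻¹ ≤
          ‖1 - g p‖ * (√((p : ℕ) : ℝ))⁻¹ * 4 := mul_le_mul_of_nonneg_left h2 h3
        _ = _ := by rw [div_eq_mul_inv]; ring

theorem kG_summable (hs : Summable fun p : Nat.Primes => ‖1 - g p‖ / √(p : ℝ))
    (hlt : ∀ p : ℕ, p.Prime → ‖g p‖ < √(p : ℝ)) :
    Summable fun n : ℕ => ‖kG g n‖ / √(n : ℝ) := by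
  have hy : ∀ p : ℕ, p.Prime → 0 ≤ ‖g p‖ * (√(p : ℝ))⁻¹ ∧ ‖g p‖ * (√(p : ℝ))⁻¹ < 1 := by
    intro p hp
    have h1 : 0 < √(p : ℝ) := by
      rw [Real.sqrt_pos]
      exact_mod_cast hp.pos
    refine ⟨by positivity, ?_⟩
    rw [← div_eq_mul_inv, div_lt_one h1]
    exact hlt p hp
  refine summable_gen (kG_mult g) (a := fun p => ‖1 - g p‖ * (√(p : ℝ))⁻¹)
    (y := fun p => ‖g p‖ * (√(p : ℝ))⁻¹) (fun p => by positivity) hy (fun p hp j => ?_) ?_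
  · rw [kG_pp hp, sqrt_pow, pow_succ, div_eq_mul_inv, mul_inv, norm_mul, norm_pow, norm_sub_rev (g p) 1,
      mul_pow, inv_pow]
    ring
  · refine Summable.of_norm_bounded_eventually (hs.mul_left 4) ?_
    have h0 := hs.tendsto_cofinite_zero.eventually (gt_mem_nhds (show (0:ℝ) < 1 / 25 by norm_num))
    filter_upwards [h0] with p hp
    have h1 := sqrt_prime_inv p.2
    have h2 : ‖g p‖ ≤ 1 + ‖1 - g p‖ := by
      have := norm_sub_le (1 : ℂ) (1 - g p)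
      rw [sub_sub_cancel, norm_one] at this
      exact this
    rw [div_eq_mul_inv] at hp
    have h3 : ‖g p‖ * (√((p : ℕ) : ℝ))⁻¹ ≤ 3 / 4 := by
      have : ‖g p‖ * (√((p : ℕ) : ℝ))⁻¹ ≤ (1 + ‖1 - g p‖) * (√((p : ℕ) : ℝ))⁻¹ :=
        mul_le_mul_of_nonneg_right h2 h1.1.le
      linarith [h1.2]
    have h4 : (1 - ‖g p‖ * (√((p : ℕ) : ℝ))⁻¹)⁻¹ ≤ 4 := by
      rw [inv_le_comm₀ (by linarith) (by norm_num)]
      linarith
    have h5 : 0 ≤ ‖1 - g p‖ * (√((p : ℕ) : ℝ))⁻¹ := by positivity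
    have h6 : 0 ≤ (1 - ‖g p‖ * (√((p : ℕ) : ℝ))⁻¹)⁻¹ := by
      apply inv_nonneg.2
      linarith
    rw [Real.norm_of_nonneg (by positivity)]
    calc ‖1 - g p‖ * (√((p : ℕ) : ℝ))⁻¹ * (1 - ‖g p‖ * (√((p : ℕ) : ℝ))⁻¹)⁻¹ ≤
        ‖1 - g p‖ * (√((p : ℕ) : ℝ))⁻¹ * 4 := mul_le_mul_of_nonneg_left h4 h5
      _ = _ := by rw [div_eq_mul_inv]; ring

end Pool.Agent.R754.WX
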