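import Pool.Agent.R754.WX.Fa
import Pool.Agent.R754.WX.Pr

set_option autoImplicit false

/-! # Weighted Mertens functions -/

namespace Pool.Agent.R754.WX

open MeasureTheory Filter Topology Set
open Pool.Agent.W120.WM (ZC NT)

theorem crit_weights {g : ℕ → ℂ} (hs : Summable fun p : Nat.Primes => ‖1 - g p‖ / √(p : ℝ))
    (hlt : ∀ p : ℕ, p.Prime → ‖g p‖ < √(p : ℝ)) :
    Crit (fun u => ∑ n ∈ Finset.Icc 1 ⌊u⌋₊, ((ArithmeticFunction.moebius n : ℤ) : ℂ) * ∏ p ∈ n.primeFactors, g p)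
      (fun ρ => ‖∏' p : Nat.Primes, (1 - g p * (p : ℂ) ^ (-ρ)) / (1 - (p : ℂ) ^ (-ρ))‖ ^ 2) := by
  refine (crit hG_mul_kG (hG_summable hs) (kG_summable hs hlt)).congr (fun u _ => ?_) (fun ρ _ hρ => ?_)
  · unfold Sh
    rw [mu_mul_hG]
    simp only [muG_apply]
  · rw [LS_eq, LSeries_hG hs hρ]

/-- the weight of the coprimality condition -/
noncomputable def gq (q : ℕ) (p : ℕ) : ℂ := if p ∣ q then 0 else 1

lemma gq_sum {q : ℕ} (hq : 0 < q) : Summable fun p : Nat.Primes => ‖1 - gq q p‖ / √(p : ℝ) := by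
  apply summable_of_finite_support
  have h1 : (Set.Finite {p : Nat.Primes | (p : ℕ) ≤ q}) := by
    have h2 : Set.Finite {n : ℕ | n ≤ q} := Set.finite_le_nat q
    exact h2.preimage (fun a _ b _ h => Subtype.ext h)
  refine h1.subset fun p hp => ?_
  rw [Function.mem_support] at hp
  by_contra h
  apply hp
  have h3 : ¬ ((p : ℕ) ∣ q) := fun hd => h (Nat.le_of_dvd hq hd)
  unfold gq
  rw [if_neg h3]
  simp

lemma gq_lt (q : ℕ) (p : ℕ) (hp : p.Prime) : ‖gq q p‖ < √(p : ℝ) := by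
  have h2 : (2 : ℝ) ≤ p := by exact_mod_cast hp.two_le
  have h1 : 1 < √(p : ℝ) := by
    rw [Real.lt_sqrt (by norm_num)]
    linarith
  unfold gq
  split_ifs
  · simp
    exact hp.pos
  · simpa using h1

lemma gq_prod (q n : ℕ) (hn : 1 ≤ n) : ∏ p ∈ n.primeFactors, gq q p = if Nat.Coprime n q then 1 else 0 := by
  by_cases h : Nat.Coprime n q
  · rw [if_pos h]
    apply Finset.prod_eq_one
    intro p hp
    have h3 := Nat.prime_of_mem_primeFactors hp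
    have h4 := Nat.dvd_of_mem_primeFactors hp
    unfold gq
    rw [if_neg]
    intro h2
    exact (Nat.not_coprime_of_dvd_of_dvd h3.one_lt h4 h2) h
  · rw [if_neg h]
    obtain ⟨p, hp, h1, h2⟩ := Nat.Prime.not_coprime_iff_dvd.1 h
    apply Finset.prod_eq_zero (Nat.mem_primeFactors.2 ⟨hp, h1, by omega⟩)
    unfold gq
    rw [if_pos h2]

theorem crit_coprime {q : ℕ} (hq : 0 < q) :
    Crit (fun u => ∑ n ∈ (Finset.Icc 1 ⌊u⌋₊).filter (fun n => Nat.Coprime n q),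
        ((ArithmeticFunction.moebius n : ℤ) : ℂ))
      (fun ρ => ∏ p ∈ q.primeFactors, 1 / ‖1 - (p : ℂ) ^ (-ρ)‖ ^ 2) := by
  refine (crit_weights (gq_sum hq) (gq_lt q)).congr (fun u _ => ?_) (fun ρ _ hρ => ?_)
  · congr 1
    rw [Finset.sum_filter]
    refine Finset.sum_congr rfl fun n hn => ?_
    rw [gq_prod q n (Finset.mem_Icc.1 hn).1]
    split_ifs <;> simp
  · have hne : ∀ p : Nat.Primes, 1 - ((p : ℕ) : ℂ) ^ (-ρ) ≠ 0 := by
      intro p h
      have h1 : ((p : ℕ) : ℂ) ^ (-ρ) = 1 := by linear_combination -h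
      have h2 := prime_cpow_norm p.2 hρ
      rw [h1, norm_one] at h2
      linarith [(sqrt_prime_inv p.2).2]
    have h1' : ∏' p : {p : ℕ // p.Prime}, (1 - gq q p * ((p : ℕ) : ℂ) ^ (-ρ)) / (1 - ((p : ℕ) : ℂ) ^ (-ρ)) =
        ∏ p ∈ q.primeFactors.subtype Nat.Prime, (1 - gq q p * ((p : ℕ) : ℂ) ^ (-ρ)) / (1 - ((p : ℕ) : ℂ) ^ (-ρ)) := by
      apply tprod_eq_prod (s := q.primeFactors.subtype Nat.Prime)
      intro p hp
      have h3 : ¬ ((p : ℕ) ∣ q) := by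
        intro hd
        apply hp
        rw [Finset.mem_subtype]
        exact Nat.mem_primeFactors.2 ⟨p.2, hd, hq.ne'⟩
      unfold gq
      rw [if_neg h3, one_mul, div_self (hne p)]
    have h1 : ∏' p : Nat.Primes, (1 - gq q p * ((p : ℕ) : ℂ) ^ (-ρ)) / (1 - ((p : ℕ) : ℂ) ^ (-ρ)) =
        ∏ p ∈ q.primeFactors.subtype Nat.Prime, (1 - gq q p * ((p : ℕ) : ℂ) ^ (-ρ)) / (1 - ((p : ℕ) : ℂ) ^ (-ρ)) := h1'
    rw [h1, norm_prod, ← Finset.prod_pow]
    have h2 : ∏ p ∈ q.primeFactors, 1 / ‖1 - (p : ℂ) ^ (-ρ)‖ ^ 2 =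
        ∏ p ∈ q.primeFactors.subtype Nat.Prime, 1 / ‖1 - ((p : ℕ) : ℂ) ^ (-ρ)‖ ^ 2 := by
      rw [Finset.prod_subtype_eq_prod_filter (fun p : ℕ => 1 / ‖1 - (p : ℂ) ^ (-ρ)‖ ^ 2)]
      congr 1
      rw [Finset.filter_true_of_mem]
      intro p hp
      exact Nat.prime_of_mem_primeFactors hp
    rw [h2]
    refine Finset.prod_congr rfl fun p hp => ?_
    rw [Finset.mem_subtype] at hp
    have h3 := Nat.dvd_of_mem_primeFactors hp
    unfold gq
    rw [if_pos h3, zero_mul, sub_zero, norm_div, norm_one, div_pow, one_pow]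

end Pool.Agent.R754.WX
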